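import Pool.Agent.ZP3.Stmts

/-! SEP of squad ZP3. -/

set_option autoImplicit false

namespace Pool.Agent.ZP3.H32

open Pool.Agent.ZPT Pool.Agent.ZP3

theorem sep (hURR : URRStmt) : SEPStmt := by
  intro p hp K _ _ _ hExt e π w L ε he hπ hw hL hπε hε hmain
  obtain ⟨-, -, -, h4, -⟩ := hURR p hp K hExt
  have hp1 : (1 : ℝ) < p := by exact_mod_cast hp.one_lt
  have hp0 : (0 : ℝ) < p := by linarith
  have hpn : ‖(p : K)‖ = (p : ℝ)⁻¹ := by
    have h := hExt (p : ℚ)
    have h2 : ((p : ℚ) : K) = (p : K) := by norm_cast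
    rw [h2] at h
    have : Fact p.Prime := ⟨hp⟩
    rw [h, padicNorm.padicNorm_p_of_prime]
    push_cast
    rfl
  have hpe : ‖π‖ ^ e = (p : ℝ)⁻¹ := by rw [← norm_pow, hπ, hpn]
  have hinv0 : 0 < (p : ℝ)⁻¹ := by positivity
  have hinv1 : (p : ℝ)⁻¹ < 1 := inv_lt_one_of_one_lt₀ hp1
  have hπ1 : ‖π‖ < 1 := lt_of_le_of_lt hπε hε
  have hπ0 : 0 < ‖π‖ := by
    rcases (norm_nonneg π).eq_or_lt with h | h
    · rw [← h, zero_pow (by omega)] at hpe
      linarith
    · exact h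
  have hε0 : 0 < ε := lt_of_lt_of_le hπ0 hπε
  have hεp : ε * (p : ℝ)⁻¹ < (p : ℝ)⁻¹ := by nlinarith
  -- norms of the terms
  have hterm : ∀ i, ‖π ^ i * L i‖ ≤ ‖π‖ ^ i := by
    intro i
    rw [norm_mul, norm_pow]
    have h1 := (hL i).1
    have h2 : 0 ≤ ‖π‖ ^ i := by positivity
    nlinarith
  -- w is not a unit
  have hw1 : ‖w‖ < 1 := by
    have h1 : ‖∑ i ∈ Finset.Icc 1 e, π ^ i * L i‖ ≤ ‖π‖ := by
      refine IsUltrametricDist.norm_sum_le_of_forall_le_of_nonneg hπ0.le ?_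
      intro i hi
      rw [Finset.mem_Icc] at hi
      refine (hterm i).trans ?_
      calc ‖π‖ ^ i ≤ ‖π‖ ^ 1 := pow_le_pow_of_le_one hπ0.le hπ1.le hi.1
        _ = ‖π‖ := pow_one _
    have h2 : w = (w - ∑ i ∈ Finset.Icc 1 e, π ^ i * L i) + ∑ i ∈ Finset.Icc 1 e, π ^ i * L i := by
      ring
    rw [h2]
    refine lt_of_le_of_lt (IsUltrametricDist.norm_add_le_max _ _) ?_
    exact max_lt (by linarith) (by linarith)
  have hwp : ‖w‖ ≤ (p : ℝ)⁻¹ := h4 w hw hw1
  -- all L i are small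
  have hsmall : ∀ i, 1 ≤ i → i < e → ‖L i‖ ≤ (p : ℝ)⁻¹ := by
    intro i
    induction i using Nat.strong_induction_on with
    | _ i ih =>
      intro hi1 hie
      by_contra hcon
      have hLi : ‖L i‖ = 1 := by
        rcases (hL i).1.eq_or_lt with h | h
        · exact h
        · exact absurd (h4 _ (hL i) h) hcon
      have hi : i ∈ Finset.Icc 1 e := Finset.mem_Icc.mpr ⟨hi1, hie.le⟩
      have hbig : (p : ℝ)⁻¹ < ‖π‖ ^ i := by
        rw [← hpe]
        exact pow_lt_pow_right_of_lt_one₀ hπ0 hπ1 hie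
      have hrest : ‖∑ j ∈ (Finset.Icc 1 e).erase i, π ^ j * L j‖ < ‖π‖ ^ i := by
        have hb : ∀ j ∈ (Finset.Icc 1 e).erase i,
            ‖π ^ j * L j‖ ≤ max ((p : ℝ)⁻¹) (‖π‖ ^ (i + 1)) := by
          intro j hj
          rw [Finset.mem_erase, Finset.mem_Icc] at hj
          rcases lt_or_gt_of_ne hj.1 with h | h
          · refine le_trans ?_ (le_max_left _ _)
            have h5 := ih j h hj.2.1 (by omega)
            rw [norm_mul, norm_pow]
            have h6 : ‖π‖ ^ j ≤ 1 := pow_le_one₀ hπ0.le hπ1.le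
            have h7 : 0 ≤ ‖L j‖ := norm_nonneg _
            nlinarith
          · refine le_trans ?_ (le_max_right _ _)
            exact (hterm j).trans (pow_le_pow_of_le_one hπ0.le hπ1.le (by omega))
        refine lt_of_le_of_lt (IsUltrametricDist.norm_sum_le_of_forall_le_of_nonneg
          (le_max_of_le_left hinv0.le) hb) ?_
        refine max_lt hbig ?_
        exact pow_lt_pow_right_of_lt_one₀ hπ0 hπ1 (by omega)
      have hsum : π ^ i * L i + ∑ j ∈ (Finset.Icc 1 e).erase i, π ^ j * L j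
          = ∑ j ∈ Finset.Icc 1 e, π ^ j * L j := Finset.add_sum_erase _ (fun j => π ^ j * L j) hi
      have heq : π ^ i * L i = w + (-(w - ∑ j ∈ Finset.Icc 1 e, π ^ j * L j)
          + -(∑ j ∈ (Finset.Icc 1 e).erase i, π ^ j * L j)) := by
        rw [← hsum]
        ring
      have hn : ‖π ^ i * L i‖ = ‖π‖ ^ i := by
        rw [norm_mul, norm_pow, hLi, mul_one]
      have hlt : ‖π ^ i * L i‖ < ‖π‖ ^ i := by
        rw [heq]
        refine lt_of_le_of_lt (IsUltrametricDist.norm_add_le_max _ _) (max_lt (by linarith) ?_)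
        refine lt_of_le_of_lt (IsUltrametricDist.norm_add_le_max _ _) (max_lt ?_ ?_)
        · rw [norm_neg]
          linarith
        · rw [norm_neg]
          exact hrest
      rw [hn] at hlt
      exact lt_irrefl _ hlt
  -- conclusion
  have hemem : e ∈ Finset.Icc 1 e := Finset.mem_Icc.mpr ⟨he, le_refl _⟩
  have hsum : π ^ e * L e + ∑ j ∈ (Finset.Icc 1 e).erase e, π ^ j * L j
      = ∑ j ∈ Finset.Icc 1 e, π ^ j * L j := Finset.add_sum_erase _ (fun j => π ^ j * L j) hemem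
  have heq : w - (p : K) * L e = (w - ∑ j ∈ Finset.Icc 1 e, π ^ j * L j)
      + ∑ j ∈ (Finset.Icc 1 e).erase e, π ^ j * L j := by
    rw [← hsum, hπ]
    ring
  rw [heq]
  refine (IsUltrametricDist.norm_add_le_max _ _).trans (max_le hmain ?_)
  refine IsUltrametricDist.norm_sum_le_of_forall_le_of_nonneg (by positivity) ?_
  intro j hj
  rw [Finset.mem_erase, Finset.mem_Icc] at hj
  have h5 := hsmall j hj.2.1 (by omega)
  rw [norm_mul, norm_pow]
  have h6 : ‖π‖ ^ j ≤ ε := by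
    refine le_trans ?_ hπε
    calc ‖π‖ ^ j ≤ ‖π‖ ^ 1 := pow_le_pow_of_le_one hπ0.le hπ1.le hj.2.1
      _ = ‖π‖ := pow_one _
  exact mul_le_mul h6 h5 (norm_nonneg _) hε0.le

end Pool.Agent.ZP3.H32
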