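import Pool.Agent.ZP3.Stmts

/-! THB of squad ZP3. -/

set_option autoImplicit false

namespace Pool.Agent.ZP3.H32

open Pool.Agent.ZPT Pool.Agent.ZP3

theorem thb : THBStmt := by
  intro p hp hp5
  have hp5' : (5 : ℝ) ≤ p := by exact_mod_cast hp5
  have hp1 : (1 : ℝ) < p := by linarith
  have hp0 : (0 : ℝ) < p := by linarith
  have hq : (0 : ℝ) < (p : ℝ) - 1 := by linarith
  have hcast : (((p - 1 : ℕ) : ℕ) : ℝ) = (p : ℝ) - 1 := by
    rw [Nat.cast_sub (by omega)]
    norm_num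
  have hcube : th p ^ 3 = (p : ℝ) ^ (-(3 : ℝ) / ((p : ℝ) - 1)) := by
    unfold th
    rw [← Real.rpow_natCast, ← Real.rpow_mul hp0.le]
    congr 1
    push_cast
    field_simp
  refine ⟨?_, ?_, ?_, ?_, ?_⟩
  · unfold th
    rw [← Real.rpow_natCast, ← Real.rpow_mul hp0.le, hcast, div_mul_cancel₀ _ hq.ne',
      Real.rpow_neg hp0.le, Real.rpow_one]
  · unfold th
    positivity
  · unfold th
    refine Real.rpow_lt_one_of_one_lt_of_neg hp1 ?_
    exact div_neg_of_neg_of_pos (by norm_num) hq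
  · rw [hcube, ← Real.rpow_neg_one]
    refine Real.rpow_lt_rpow_of_exponent_lt hp1 ?_
    rw [lt_div_iff₀ hq]
    linarith
  · intro e he hep
    rw [hcube]
    refine Real.rpow_lt_rpow_of_exponent_lt hp1 ?_
    have he0 : (0 : ℝ) < 2 * (e : ℝ) := by
      have : (1 : ℝ) ≤ e := by exact_mod_cast he
      linarith
    have hep' : (6 : ℝ) * e + 1 < p := by exact_mod_cast hep
    rw [div_lt_div_iff₀ he0 hq]
    linarith

end Pool.Agent.ZP3.H32
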